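import Pool.Agent.K7.H32.FT.Stm2

/-!
# Project FT, job JB: moving the first and the last strand
-/

set_option autoImplicit false

namespace Pool.Agent.K7.H79.FT

open Finset Matrix Pool.Agent.H550R3.Jones Pool.Agent.W715.VC Pool.Agent.K7.H32.FT

variable {N : ℕ}

lemma wtl_append (r s : List (Fin N)) : wtl (r ++ s) = wtl r + wtl s := by
  simp [wtl]; ring

lemma opw_succ (R : Mx N) (w : List ℕ) : ∀ (f : St N) (c : Fin N) (s : List (Fin N)),
    opw R (w.map Nat.succ) f (c :: s) = opw R w (cm c f) s := by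
  induction w with
  | nil => intro f c s; rfl
  | cons i w ih =>
    intro f c s
    simp only [List.map_cons, opw, LinearMap.comp_apply]
    rw [ih]
    rfl

lemma opw_append (R : Mx N) (w : List ℕ) (i : ℕ) (f : St N) :
    opw R (w ++ [i]) f = cr R i (opw R w f) := by
  induction w generalizing f with
  | nil => rfl
  | cons j w ih =>
    simp only [List.cons_append, opw, LinearMap.comp_apply]
    exact ih _

lemma brf_ne' {v : ℂ} (hv : Adm N v) (c : Fin N) : brf v c ≠ 0 := by
  unfold brf
  rw [prod_ne_zero_iff]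
  intro j hj
  rw [mem_range] at hj
  have := hv.2 (j + 1) (by omega) (by have := c.2; omega)
  exact_mod_cast this

lemma P_swap {v : ℂ} (hv : Adm N v) (c k : Fin N) : crossP N v (c, k) (k, c) =
    v ^ (-((N : ℤ) - 1) * (1 + (k : ℕ) + (c : ℕ)) + 2 * (c : ℕ) * (k : ℕ)) := by
  unfold crossP
  simp only
  rw [if_pos ⟨Nat.add_comm _ _, le_rfl⟩]
  have h0 : brf v 0 = 1 := by simp [brf]
  rw [Nat.sub_self, h0, mul_one, div_self (brf_ne' hv c)]
  simp

lemma P_zero {v : ℂ} {c a : Fin N} {q : Fin N × Fin N}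
    (h : ¬ ((q.2 : ℕ) ≤ c ∧ (a : ℕ) ≤ q.1 ∧ (c : ℕ) + a = q.1 + q.2)) :
    crossP N v (c, a) q = 0 := by
  unfold crossP
  simp only
  rw [if_neg]
  rintro ⟨h1, h2⟩
  exact h ⟨h2, by omega, h1⟩

theorem t_up : S_UP := by
  intro N v hv f k n
  induction n generalizing f with
  | zero =>
    intro hf r hr
    rw [List.length_eq_zero_iff] at hr
    subst hr
    simp only [List.range_zero, opw, LinearMap.id_apply, List.nil_append]
    refine ⟨fun b hb => hf b [] rfl hb, ?_⟩
    simp
  | succ n ih =>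
    intro hf r hr
    obtain ⟨c, r', rfl⟩ : ∃ c r', r = c :: r' := by
      rcases r with _ | ⟨c, r'⟩
      · simp at hr
      · exact ⟨c, r', rfl⟩
    have hr' : r'.length = n := by simpa using hr
    have key : ∀ (a : Fin N) (s : List (Fin N)), s.length = n → k < a →
        cm c (cr (crossP N v) 0 f) (a :: s) = 0 := by
      intro a s hs ha
      rw [cm_apply, cr_zero]
      refine sum_eq_zero fun q _ => ?_
      by_cases h : (q.2 : ℕ) ≤ c ∧ (a : ℕ) ≤ q.1 ∧ (c : ℕ) + a = q.1 + q.2
      · rw [hf q.1 (q.2 :: s) (by simp [hs]) (Fin.lt_def.2 (lt_of_lt_of_le (Fin.lt_def.1 ha) h.2.1)),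
          mul_zero]
      · rw [P_zero h, zero_mul]
    have h1 : ∀ b : Fin N, opw (crossP N v) (List.range (n + 1)) f ((c :: r') ++ [b]) =
        opw (crossP N v) (List.range n) (cm c (cr (crossP N v) 0 f)) (r' ++ [b]) := by
      intro b
      rw [List.range_succ_eq_map]
      simp only [opw, LinearMap.comp_apply, List.cons_append]
      exact opw_succ _ _ _ _ _
    obtain ⟨h2, h3⟩ := ih (cm c (cr (crossP N v) 0 f)) key r' hr'
    refine ⟨fun b hb => by rw [h1, h2 b hb], ?_⟩
    rw [h1, h3, cm_apply, cr_zero, sum_eq_single (k, c)]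
    · rw [P_swap hv, ← mul_assoc, ← zpow_add₀ hv.1, isum_cons]
      congr 2
      push_cast
      ring
    · rintro ⟨q1, q2⟩ _ hq
      by_cases h : (q2 : ℕ) ≤ c ∧ (k : ℕ) ≤ q1 ∧ (c : ℕ) + k = q1 + q2
      · have h4 : k < q1 := by
          rcases eq_or_lt_of_le h.2.1 with h5 | h5
          · exfalso
            apply hq
            exact Prod.ext (Fin.ext h5.symm) (Fin.ext (by simp only; omega))
          · exact Fin.lt_def.2 h5
        simp only
        rw [hf q1 (q2 :: r') (by simp [hr']) h4, mul_zero]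
      · rw [P_zero (q := (q1, q2)) h, zero_mul]
    · intro h; exact absurd (mem_univ _) h

theorem t_dn : S_DN := by
  intro N v hv f k n hk
  induction n generalizing f with
  | zero =>
    intro r hr
    rw [List.length_eq_zero_iff] at hr
    subst hr
    simp [opw]
  | succ n ih =>
    intro r hr
    obtain ⟨c, r', rfl⟩ : ∃ c r', r = c :: r' := by
      rcases r with _ | ⟨c, r'⟩
      · simp at hr
      · exact ⟨c, r', rfl⟩
    have hr' : r'.length = n := by simpa using hr
    rw [List.range_succ_eq_map, List.reverse_cons, opw_append, cr_zero, sum_eq_single (c, k)]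
    · have h1 : opw (crossP N v) (List.map Nat.succ (List.range n)).reverse f (c :: k :: r') =
          opw (crossP N v) (List.range n).reverse (cm c f) (k :: r') := by
        rw [← List.map_reverse]
        exact opw_succ _ _ _ _ _
      simp only
      rw [h1, ih (cm c f) r' hr', P_swap hv, cm_apply, ← mul_assoc, ← zpow_add₀ hv.1, isum_cons,
        List.cons_append]
      congr 2
      rw [hk]
      push_cast
      ring
    · rintro ⟨q1, q2⟩ _ hq
      by_cases h : (q2 : ℕ) ≤ k ∧ (c : ℕ) ≤ q1 ∧ (k : ℕ) + c = q1 + q2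
      · exfalso
        apply hq
        exact Prod.ext (Fin.ext (by simp only; omega)) (Fin.ext (by simp only; omega))
      · rw [P_zero (q := (q1, q2)) h, zero_mul]
    · intro h; exact absurd (mem_univ _) h

theorem t_snoc : S_SNOC := by
  intro N v hv f b r
  induction r generalizing f with
  | nil =>
    rw [List.nil_append, eo_cons, eo_nil, eo_nil]
    simp
  | cons a r ih =>
    rw [List.cons_append, eo_cons, eo_cons, ih, mul_add, add_assoc]
    have e1 : (if h : (a : ℕ) + 1 < N then
        br v ((N : ℤ) - 1 - (a : ℕ)) * v ^ (wtl (r ++ [b])) * f (⟨a + 1, h⟩ :: (r ++ [b])) else 0) =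
        v ^ ((N : ℤ) - 1 - 2 * (b : ℕ)) * (if h : (a : ℕ) + 1 < N then
        br v ((N : ℤ) - 1 - (a : ℕ)) * v ^ (wtl r) * f ((⟨a + 1, h⟩ :: r) ++ [b]) else 0) := by
      split_ifs with h
      · rw [wtl_append, zpow_add₀ hv, wtl_cons, wtl_nil, add_zero]
        simp only [List.cons_append]
        ring
      · simp
    rw [e1]
    congr 1

lemma eo_congr (v : ℂ) (s : List (Fin N)) : ∀ (f g : St N),
    (∀ t : List (Fin N), t.length = s.length → f t = g t) → eo v f s = eo v g s := by
  induction s with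
  | nil => intro f g _; rw [eo_nil, eo_nil]
  | cons a s ih =>
    intro f g h
    rw [eo_cons, eo_cons, ih (cm a f) (cm a g) (fun t ht => h (a :: t) (by simp [ht]))]
    congr 1
    split_ifs with h1
    · rw [h _ (by simp)]
    · rfl

theorem t_cmp : S_CMP := by
  intro N v hv n f g hf hg h0
  have key : ∀ (m : ℕ) (a : Fin N), (a : ℕ) = m → ∀ r : List (Fin N), r.length = n →
      f (a :: r) = v ^ (-(((N : ℤ) - 1) * (n + ((a : ℕ) + isum r))) +
        (a : ℕ) * (2 * ((a : ℕ) + isum r - 1) - (n + 1) * ((N : ℤ) - 1))) * g (r ++ [a]) := by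
    intro m
    induction m with
    | zero =>
      intro a ha r hr
      rw [h0 a r ha hr, ha]
      congr 2
      push_cast
      ring
    | succ m ih =>
      intro a ha r hr
      have hm : m < N := by have := a.2; omega
      set c : Fin N := ⟨m, hm⟩ with hc
      have hcm : (c : ℕ) = m := rfl
      have h1 : (c : ℕ) + 1 < N := by have := a.2; omega
      have hca : (⟨(c : ℕ) + 1, h1⟩ : Fin N) = a := Fin.ext (by simp only [hcm]; omega)
      have e1 := hf (c :: r) (by simp [hr])
      rw [eo_cons, dif_pos h1, hca] at e1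
      have e2 := hg (r ++ [c]) (by simp [hr])
      rw [t_snoc N v hv.1, dif_pos h1, hca] at e2
      have e3 : eo v (cm c f) r = v ^ (-(((N : ℤ) - 1) * (n + ((c : ℕ) + (isum r + 1)))) +
          (c : ℕ) * (2 * ((c : ℕ) + (isum r + 1) - 1) - (n + 1) * ((N : ℤ) - 1))) *
          eo v (fun t => g (t ++ [c])) r := by
        have e4 := eo_mu v r (fun _ y => v ^ (-(((N : ℤ) - 1) * (n + ((c : ℕ) + y))) +
          (c : ℕ) * (2 * ((c : ℕ) + y - 1) - (n + 1) * ((N : ℤ) - 1)))) (fun t => g (t ++ [c]))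
        rw [← e4]
        refine eo_congr v r _ _ fun t ht => ?_
        rw [cm_apply, mu_apply]
        exact ih c rfl t (by rw [ht, hr])
      rw [e3] at e1
      have hb : br v ((N : ℤ) - 1 - (c : ℕ)) ≠ 0 := by
        have := hv.2 (N - 1 - m) (by omega) (by omega)
        have e5 : ((N - 1 - m : ℕ) : ℤ) = (N : ℤ) - 1 - (c : ℕ) := by
          rw [hcm]; omega
        rwa [e5] at this
      have hw : wtl r = n * ((N : ℤ) - 1) - 2 * isum r := by rw [wtl, hr]
      set E := eo v (fun t => g (t ++ [c])) r with hE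
      have e6 : E = -(v ^ (-((N : ℤ) - 1 - 2 * (c : ℕ))) * (br v ((N : ℤ) - 1 - (c : ℕ)) *
          g (r ++ [a]))) := by
        have : v ^ (-((N : ℤ) - 1 - 2 * (c : ℕ))) * (v ^ ((N : ℤ) - 1 - 2 * (c : ℕ)) * E +
          br v ((N : ℤ) - 1 - (c : ℕ)) * g (r ++ [a])) = 0 := by rw [e2, mul_zero]
        rw [mul_add, ← mul_assoc, ← zpow_add₀ hv.1, neg_add_cancel, zpow_zero, one_mul] at this
        linear_combination this
      rw [e6] at e1
      have e7 : br v ((N : ℤ) - 1 - (c : ℕ)) * (v ^ (wtl r) * f (a :: r)) =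
          br v ((N : ℤ) - 1 - (c : ℕ)) * (v ^ (-(((N : ℤ) - 1) * (n + ((c : ℕ) + (isum r + 1)))) +
          (c : ℕ) * (2 * ((c : ℕ) + (isum r + 1) - 1) - (n + 1) * ((N : ℤ) - 1))) *
          v ^ (-((N : ℤ) - 1 - 2 * (c : ℕ))) * g (r ++ [a])) := by
        linear_combination e1
      have e8 := mul_left_cancel₀ hb e7
      have e9 : f (a :: r) = v ^ (-wtl r) * (v ^ (wtl r) * f (a :: r)) := by
        rw [← mul_assoc, ← zpow_add₀ hv.1, neg_add_cancel, zpow_zero, one_mul]
      rw [e9, e8, ← mul_assoc, ← mul_assoc, ← zpow_add₀ hv.1, ← zpow_add₀ hv.1, hw]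
      congr 2
      have ha' : ((a : ℕ) : ℤ) = (c : ℕ) + 1 := by rw [ha, hcm]; push_cast; ring
      rw [ha']
      ring
  intro a r hr
  exact key a a rfl r hr

end Pool.Agent.K7.H79.FT
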