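import Pool.Agent.K7.H47.DM.Stm4

/-! # Job U of the project D4 (MP_344d54_co): optimal matchings have the same classes at all rows -/

set_option autoImplicit false

namespace Pool.Agent.K7.H79.D4

open Pool.Agent.K7.H47.DM4 Finset

theorem u_aux (ι : Type) [Fintype ι] [DecidableEq ι] (t j cl : ι → ℕ) (ht : Function.Injective t)
    (σ σ' : Equiv.Perm ι) (h1 : Feas t j σ) (h2 : Feas t j σ')
    (hopt : ∀ τ, Feas t j τ → Wt t cl τ ≤ Wt t cl σ) (r : ι)
    (hmin : ∀ r', t r' < t r → cl (σ.symm r') = cl (σ'.symm r'))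
    (hlt : cl (σ'.symm r) < cl (σ.symm r)) : False := by
  obtain ⟨x, hx1, hx2, hx3⟩ : ∃ x, cl x = cl (σ'.symm r) ∧ t (σ' x) ≤ t r ∧ t r < t (σ x) := by
    by_contra hcon
    push Not at hcon
    let B : Finset ι := Finset.univ.filter (fun r' => t r' ≤ t r ∧ cl (σ.symm r') = cl (σ'.symm r))
    let B' : Finset ι := Finset.univ.filter (fun r' => t r' ≤ t r ∧ cl (σ'.symm r') = cl (σ'.symm r))
    have hB : B' = insert r B := by
      ext r'
      simp only [B, B', Finset.mem_filter, Finset.mem_univ, true_and, Finset.mem_insert]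
      constructor
      · rintro ⟨ha, hb⟩
        by_cases hr : r' = r
        · exact Or.inl hr
        · refine Or.inr ⟨ha, ?_⟩
          have : t r' ≠ t r := fun h => hr (ht h)
          rw [hmin r' (lt_of_le_of_ne ha this), hb]
      · rintro (rfl | ⟨ha, hb⟩)
        · exact ⟨le_rfl, rfl⟩
        · refine ⟨ha, ?_⟩
          have hr : r' ≠ r := by
            rintro rfl
            omega
          have : t r' ≠ t r := fun h => hr (ht h)
          rw [← hmin r' (lt_of_le_of_ne ha this), hb]
    have hnot : r ∉ B := by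
      simp only [B, Finset.mem_filter, Finset.mem_univ, true_and, not_and]
      intro _
      omega
    have hcard : B'.card ≤ B.card := by
      refine Finset.card_le_card_of_injOn (fun r' => σ (σ'.symm r')) ?_ ?_
      · intro r' hr'
        simp only [B', Finset.coe_filter, Finset.mem_univ, true_and, Set.mem_setOf_eq] at hr'
        simp only [B, Finset.coe_filter, Finset.mem_univ, true_and, Set.mem_setOf_eq]
        refine ⟨hcon _ hr'.2 ?_, ?_⟩
        · rw [Equiv.apply_symm_apply]; exact hr'.1
        · rw [Equiv.symm_apply_apply]; exact hr'.2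
      · intro a _ b _ hab
        exact σ'.symm.injective (σ.injective hab)
    have h3 : B'.card = B.card + 1 := by rw [hB, Finset.card_insert_of_notMem hnot]
    omega
  set y := σ.symm r with hy
  have hσy : σ y = r := by rw [hy, Equiv.apply_symm_apply]
  have hne : x ≠ y := by
    rintro h
    rw [h] at hx1
    omega
  let τ : Equiv.Perm ι := (Equiv.swap x y).trans σ
  have hτx : τ x = r := by
    simp [τ, hσy]
  have hτy : τ y = σ x := by
    simp [τ]
  have hτ : ∀ c, c ≠ x → c ≠ y → τ c = σ c := by
    intro c hcx hcy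
    simp [τ, Equiv.swap_apply_of_ne_of_ne hcx hcy]
  have hf : Feas t j τ := by
    intro c
    by_cases hcx : c = x
    · rw [hcx, hτx]
      exact (h2 x).trans hx2
    · by_cases hcy : c = y
      · rw [hcy, hτy]
        have := h1 y
        rw [hσy] at this
        exact this.trans hx3.le
      · rw [hτ c hcx hcy]; exact h1 c
  have hw := hopt τ hf
  have hs : ∀ g : ι → ℕ, ∑ c, g c = g x + (g y + ∑ c ∈ (Finset.univ.erase x).erase y, g c) := by
    intro g
    rw [Finset.add_sum_erase _ g (by simp [hne.symm]), Finset.add_sum_erase _ g (Finset.mem_univ x)]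
  have hrest : ∑ c ∈ (Finset.univ.erase x).erase y, cl c * t (τ c) =
      ∑ c ∈ (Finset.univ.erase x).erase y, cl c * t (σ c) := by
    refine Finset.sum_congr rfl fun c hc => ?_
    simp only [Finset.mem_erase, Finset.mem_univ, and_true] at hc
    rw [hτ c hc.2 hc.1]
  unfold Wt at hw
  rw [hs (fun c => cl c * t (τ c)), hs (fun c => cl c * t (σ c))] at hw
  simp only [hrest, hτx, hτy, hσy] at hw
  have hlt' : cl x < cl y := by omega
  obtain ⟨a, ha⟩ := Nat.exists_eq_add_of_lt hlt'
  obtain ⟨b, hb⟩ := Nat.exists_eq_add_of_lt hx3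
  rw [ha, hb] at hw
  nlinarith

theorem u : StU := by
  intro ι _ _ t j cl ht σ σ' h1 h2 ho1 ho2
  by_contra hcon
  push Not at hcon
  obtain ⟨r0, hr0⟩ := hcon
  obtain ⟨r, hr, hmin⟩ := Finset.exists_min_image
    (Finset.univ.filter (fun r => cl (σ.symm r) ≠ cl (σ'.symm r))) t ⟨r0, by simpa using hr0⟩
  simp only [Finset.mem_filter, Finset.mem_univ, true_and] at hr hmin
  have hm : ∀ r', t r' < t r → cl (σ.symm r') = cl (σ'.symm r') := by
    intro r' hr'
    by_contra h
    have := hmin r' h
    omega
  rcases lt_or_gt_of_ne hr with h | h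
  · exact u_aux ι t j cl ht σ' σ h2 h1 ho2 r (fun r' hr' => (hm r' hr').symm) h
  · exact u_aux ι t j cl ht σ σ' h1 h2 ho1 r hm h

end Pool.Agent.K7.H79.D4
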