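import Pool.Agent.K7.H84.GG.Stm

set_option autoImplicit false

/-! JOB CON of project GG. -/

namespace Pool.Agent.K7.H79.GGCON

open Finset DC813 Pool.Agent.K7.H84.GG

theorem con_apply {α : Type} [DecidableEq α] (r : Finset α → ℕ) (X A : Finset α) :
    con r X A = r (A ∪ X) - r X := rfl

/-- StCON -/
theorem t : StCON := by
  intro α _ r X hr
  have hle : ∀ A : Finset α, r X ≤ r (A ∪ X) := fun A => hr.mono _ _ subset_union_right
  refine ⟨?_, ?_, ?_, ?_⟩
  · rw [con_apply, empty_union]
    omega
  · intro A B hAB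
    rw [con_apply, con_apply]
    exact Nat.sub_le_sub_right (hr.mono _ _ (union_subset_union hAB (subset_refl _))) _
  · intro A e
    rw [con_apply, con_apply, insert_union]
    have h1 := hr.insert_le (A ∪ X) e
    have h2 := hle A
    omega
  · intro A B
    rw [con_apply, con_apply, con_apply, con_apply]
    have h1 := hr.submod (A ∪ X) (B ∪ X)
    have e1 : A ∪ X ∪ (B ∪ X) = A ∪ B ∪ X := by
      ext x
      simp only [mem_union]
      tauto
    have e2 : (A ∪ X) ∩ (B ∪ X) = A ∩ B ∪ X := by
      ext x
      simp only [mem_union, mem_inter]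
      tauto
    rw [e1, e2] at h1
    have h2 := hle A
    have h3 := hle B
    have h4 := hle (A ∪ B)
    have h5 := hle (A ∩ B)
    omega

theorem mem_fl {α : Type} [DecidableEq α] (r : Finset α → ℕ) (E F : Finset α) :
    F ∈ fl r E ↔ F ⊆ E ∧ ∀ e ∈ E, e ∉ F → r F < r (insert e F) := by
  unfold fl
  rw [mem_filter, mem_powerset]

/-- the flats of a contraction -/
theorem fl_con {α : Type} [DecidableEq α] (r : Finset α → ℕ) (E X F' : Finset α) (hr : IsRk r)
    (hX : X ⊆ E) (hF : Disjoint F' X) : F' ∈ fl (con r X) (E \ X) ↔ F' ∪ X ∈ fl r E := by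
  have hle : ∀ A : Finset α, r X ≤ r (A ∪ X) := fun A => hr.mono _ _ subset_union_right
  rw [mem_fl, mem_fl]
  constructor
  · rintro ⟨h1, h2⟩
    refine ⟨union_subset (h1.trans sdiff_subset) hX, fun e he heF => ?_⟩
    rw [mem_union, not_or] at heF
    have h3 := h2 e (mem_sdiff.2 ⟨he, heF.2⟩) heF.1
    rw [con_apply, con_apply, insert_union] at h3
    have := hle F'
    omega
  · rintro ⟨h1, h2⟩
    refine ⟨fun x hx => mem_sdiff.2 ⟨h1 (mem_union_left _ hx), disjoint_left.1 hF hx⟩, fun e he heF => ?_⟩
    rw [mem_sdiff] at he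
    have h3 := h2 e he.1 (by rw [mem_union, not_or]; exact ⟨heF, he.2⟩)
    rw [con_apply, con_apply, insert_union]
    have := hle F'
    omega

/-- StFLC -/
theorem flc : StFLC := by
  intro α _ r E X hr hX
  obtain ⟨hXE, hXf⟩ := (mem_fl r E X).1 hX
  refine ⟨?_, ?_, ?_⟩
  · intro g
    refine sum_nbij' (fun F' => F' ∪ X) (fun F => F \ X) ?_ ?_ ?_ ?_ ?_
    · intro F' hF'
      have h1 := ((mem_fl _ _ _).1 hF').1
      have h2 : Disjoint F' X := disjoint_of_subset_left h1 sdiff_disjoint
      rw [mem_filter]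
      exact ⟨(fl_con r E X F' hr hXE h2).1 hF', subset_union_right⟩
    · intro F hF
      rw [mem_filter] at hF
      rw [fl_con r E X (F \ X) hr hXE sdiff_disjoint, sdiff_union_of_subset hF.2]
      exact hF.1
    · intro F' hF'
      have h1 := ((mem_fl _ _ _).1 hF').1
      have h2 : Disjoint F' X := disjoint_of_subset_left h1 sdiff_disjoint
      exact union_sdiff_cancel_right h2
    · intro F hF
      rw [mem_filter] at hF
      exact sdiff_union_of_subset hF.2
    · intro F' hF'
      have h1 := ((mem_fl _ _ _).1 hF').1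
      have h2 : Disjoint F' X := disjoint_of_subset_left h1 sdiff_disjoint
      show g F' = g ((F' ∪ X) \ X)
      rw [union_sdiff_cancel_right h2]
  · intro F hXF
    funext A
    rw [con_apply, con_apply, con_apply, con_apply]
    have e1 : A ∪ F \ X ∪ X = A ∪ F := by
      rw [union_assoc, sdiff_union_of_subset hXF]
    rw [e1, sdiff_union_of_subset hXF]
    have h1 := hr.mono X F hXF
    have h2 := hr.mono F (A ∪ F) subset_union_right
    omega
  · intro x hx
    rw [mem_sdiff] at hx
    rw [con_apply, singleton_union]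
    have := hXf x hx.1 hx.2
    omega

end Pool.Agent.K7.H79.GGCON
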