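import Pool.Agent.K7.H80.MD.Stm

/-!
MP_437110_pr, project MD, job DEG: the degrees of `G(n,p)` are at most `8 n p`, up to probability `n exp(-4np)`.
-/

set_option autoImplicit false

namespace Pool.Agent.K7.H79.MDDEG

open Finset Filter Pool.Agent.K7.H80.MD

theorem card_inc {n : ℕ} (G : SimpleGraph (Fin n)) [Fintype G.edgeSet] [DecidableEq (Sym2 (Fin n))]
    (v : Fin n) [DecidablePred fun e : Sym2 (Fin n) => v ∈ e] :
    (G.edgeFinset.filter (fun e => v ∈ e)).card = nbr G univ v := by
  classical
  unfold nbr
  symm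
  refine Finset.card_bij (fun u _ => s(v, u)) ?_ ?_ ?_
  · intro u hu
    simp only [mem_filter, mem_univ, true_and] at hu
    simp only [mem_filter, SimpleGraph.mem_edgeFinset, SimpleGraph.mem_edgeSet]
    exact ⟨hu, Sym2.mem_mk_left _ _⟩
  · intro u _ u' _ h
    exact Sym2.congr_right.1 h
  · intro e he
    simp only [mem_filter, SimpleGraph.mem_edgeFinset] at he
    obtain ⟨h1, h2⟩ := he
    obtain ⟨w, rfl⟩ := Sym2.mem_iff_exists.1 h2
    refine ⟨w, ?_, rfl⟩
    simp only [mem_filter, mem_univ, true_and]
    exact h1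

theorem prod_two {n : ℕ} (G : SimpleGraph (Fin n)) [Fintype G.edgeSet]
    (v : Fin n) [DecidablePred fun e : Sym2 (Fin n) => v ∈ e] :
    ∏ e ∈ G.edgeFinset, (if v ∈ e then (2 : ℝ) else 1) = 2 ^ (nbr G univ v) := by
  classical
  rw [Finset.prod_ite, prod_const, prod_const_one, mul_one, card_inc G v]

theorem prod_le {n : ℕ} (p : ℝ) (hp : 0 ≤ p) (v : Fin n)
    [DecidablePred fun e : Sym2 (Fin n) => v ∈ e]
    [DecidablePred fun e : Sym2 (Fin n) => ¬ e.IsDiag] :
    ∏ e ∈ univ.filter (fun e : Sym2 (Fin n) => ¬ e.IsDiag),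
      (p * (if v ∈ e then (2 : ℝ) else 1) + (1 - p) * 1) ≤ Real.exp (n * p) := by
  classical
  have h1 : ∀ e : Sym2 (Fin n), p * (if v ∈ e then (2 : ℝ) else 1) + (1 - p) * 1 =
      if v ∈ e then 1 + p else 1 := by
    intro e
    split_ifs <;> ring
  rw [Finset.prod_congr rfl (fun e _ => h1 e), Finset.prod_ite, prod_const, prod_const_one, mul_one]
  have h2 : ((univ.filter (fun e : Sym2 (Fin n) => ¬ e.IsDiag)).filter (fun e => v ∈ e)).card ≤ n := by
    calc _ ≤ ((univ : Finset (Fin n)).image (fun u => s(v, u))).card := by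
          apply Finset.card_le_card
          intro e he
          simp only [mem_filter] at he
          obtain ⟨w, rfl⟩ := Sym2.mem_iff_exists.1 he.2
          exact Finset.mem_image_of_mem _ (mem_univ w)
      _ ≤ (univ : Finset (Fin n)).card := Finset.card_image_le
      _ = n := by simp
  calc _ ≤ (1 + p) ^ n := pow_le_pow_right₀ (by linarith) (by convert h2)
    _ ≤ (Real.exp p) ^ n := by
        apply pow_le_pow_left₀ (by linarith)
        linarith [Real.add_one_le_exp p]
    _ = Real.exp (n * p) := by rw [← Real.exp_nat_mul]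

theorem wt_nonneg (n : ℕ) (p : ℝ) (hp : 0 ≤ p) (hp1 : p ≤ 1) (a b : ℕ) :
    0 ≤ p ^ a * (1 - p) ^ b := mul_nonneg (pow_nonneg hp _) (pow_nonneg (by linarith) _)

open Classical in
theorem one_vertex (h : StProd) (n : ℕ) (p : ℝ) (hp : 0 ≤ p) (hp1 : p ≤ 1) (v : Fin n) :
    Pr n p (fun G => 8 * n * p < nbr G univ v) ≤ Real.exp (-(4 * n * p)) := by
  unfold Pr
  have hlog := Real.log_two_gt_d9
  have hnp : 0 ≤ (n : ℝ) * p := mul_nonneg (Nat.cast_nonneg _) hp
  set c : ℝ := Real.exp (-(8 * n * p * Real.log 2)) with hc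
  have hc0 : 0 < c := Real.exp_pos _
  have key := h n p (fun e => if v ∈ e then (2 : ℝ) else 1) (fun _ => 1)
  calc ∑ G ∈ (univ : Finset (SimpleGraph (Fin n))).filter (fun G => 8 * n * p < nbr G univ v),
        p ^ G.edgeFinset.card * (1 - p) ^ (n.choose 2 - G.edgeFinset.card)
      ≤ ∑ G ∈ (univ : Finset (SimpleGraph (Fin n))).filter (fun G => 8 * n * p < nbr G univ v),
        (p ^ G.edgeFinset.card * (1 - p) ^ (n.choose 2 - G.edgeFinset.card)) *
          (2 ^ (nbr G univ v) * c) := by
        apply Finset.sum_le_sum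
        intro G hG
        simp only [mem_filter, mem_univ, true_and] at hG
        apply le_mul_of_one_le_right (wt_nonneg n p hp hp1 _ _)
        have : (2 : ℝ) ^ (nbr G univ v) = Real.exp ((nbr G univ v : ℝ) * Real.log 2) := by
          rw [Real.exp_nat_mul, Real.exp_log (by norm_num)]
        rw [this, hc, ← Real.exp_add]
        apply Real.one_le_exp
        nlinarith
    _ ≤ ∑ G : SimpleGraph (Fin n),
        (p ^ G.edgeFinset.card * (1 - p) ^ (n.choose 2 - G.edgeFinset.card)) *
          (2 ^ (nbr G univ v) * c) := by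
        apply Finset.sum_le_sum_of_subset_of_nonneg (Finset.filter_subset _ _)
        intro G _ _
        exact mul_nonneg (wt_nonneg n p hp hp1 _ _) (by positivity)
    _ = c * ∏ e ∈ univ.filter (fun e : Sym2 (Fin n) => ¬ e.IsDiag),
        (p * (if v ∈ e then (2 : ℝ) else 1) + (1 - p) * 1) := by
        rw [← key, Finset.mul_sum]
        apply Finset.sum_congr rfl
        intro G _
        rw [prod_const_one, mul_one, prod_two G v]
        ring
    _ ≤ c * Real.exp (n * p) := mul_le_mul_of_nonneg_left (prod_le p hp v) hc0.le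
    _ ≤ Real.exp (-(4 * n * p)) := by
        rw [hc, ← Real.exp_add]
        apply Real.exp_le_exp.2
        nlinarith

open Classical in
/-- JOB DEG -/
theorem t (h : StProd) : StDeg := by
  intro n p _ hp hp1
  calc Pr n p (fun G => ∃ v, 8 * n * p < nbr G univ v)
      ≤ ∑ v : Fin n, Pr n p (fun G => 8 * n * p < nbr G univ v) := by
        unfold Pr
        simp only [Finset.sum_filter]
        rw [Finset.sum_comm]
        apply Finset.sum_le_sum
        intro G _
        by_cases hG : ∃ v, 8 * n * p < nbr G univ v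
        · rw [if_pos hG]
          obtain ⟨v, hv⟩ := hG
          refine le_trans (le_of_eq ?_) (Finset.single_le_sum (f := fun v =>
            if 8 * n * p < nbr G univ v then
              p ^ G.edgeFinset.card * (1 - p) ^ (n.choose 2 - G.edgeFinset.card) else 0)
            (fun w _ => by
              show (0 : ℝ) ≤ if 8 * n * p < nbr G univ w then
                p ^ G.edgeFinset.card * (1 - p) ^ (n.choose 2 - G.edgeFinset.card) else 0
              split_ifs
              · exact wt_nonneg n p hp hp1 _ _
              · exact le_rfl) (mem_univ v))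
          show _ = if 8 * n * p < nbr G univ v then
              p ^ G.edgeFinset.card * (1 - p) ^ (n.choose 2 - G.edgeFinset.card) else 0
          rw [if_pos hv]
        · rw [if_neg hG]
          apply Finset.sum_nonneg
          intro w _
          split_ifs
          · exact wt_nonneg n p hp hp1 _ _
          · exact le_rfl
    _ ≤ ∑ _v : Fin n, Real.exp (-(4 * n * p)) :=
        Finset.sum_le_sum fun v _ => one_vertex h n p hp hp1 v
    _ = n * Real.exp (-(4 * n * p)) := by simp

end Pool.Agent.K7.H79.MDDEG
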