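import Pool.Agent.K7.H50.OG.Basic

set_option autoImplicit false

/-! JOB STAR of project OG. -/

namespace Pool.Agent.K7.H79.OG

open Pool.Agent.K7.H50.OG Finset

/-- increasing enumeration of a finite set of naturals -/
theorem enum (k : ℕ) (S : Finset ℕ) (hS : S.card = k) : ∃ f : ℕ → ℕ,
    (∀ i, 1 ≤ i → i ≤ k → f i ∈ S) ∧ (∀ i j, 1 ≤ i → i < j → j ≤ k → f i < f j) ∧
    ∀ y ∈ S, ∃ i, 1 ≤ i ∧ i ≤ k ∧ f i = y := by
  classical
  refine ⟨fun i => if h : 1 ≤ i ∧ i ≤ k then S.orderEmbOfFin hS ⟨i - 1, by omega⟩ else 0, ?_, ?_, ?_⟩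
  · intro i h1 h2
    simp only [dif_pos (And.intro h1 h2)]
    exact S.orderEmbOfFin_mem hS _
  · intro i j h1 h2 h3
    have h4 : 1 ≤ i ∧ i ≤ k := ⟨h1, by omega⟩
    have h5 : 1 ≤ j ∧ j ≤ k := ⟨by omega, h3⟩
    simp only [dif_pos h4, dif_pos h5]
    exact (S.orderEmbOfFin hS).strictMono (by
      rw [Fin.mk_lt_mk]
      omega)
  · intro y hy
    have h1 : y ∈ Set.range (S.orderEmbOfFin hS) := by
      rw [S.range_orderEmbOfFin hS]
      exact hy
    obtain ⟨t, ht⟩ := h1
    have h2 : 1 ≤ t.1 + 1 ∧ t.1 + 1 ≤ k := ⟨by omega, by have := t.2; omega⟩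
    refine ⟨t.1 + 1, h2.1, h2.2, ?_⟩
    simp only [dif_pos h2]
    rw [← ht]
    congr 1

theorem up (k : ℕ) (hk : 2 ≤ k) (R : Gr) (n : ℕ) : ∀ V : Finset ℕ, n * (k - 1) + 1 ≤ V.card →
    (∃ x ∈ V, ∃ T ⊆ V, (∀ y ∈ T, x < y ∧ R x y) ∧ T.card = k - 1) ∨
    ∃ W ⊆ V, W.card = n + 1 ∧ ∀ x ∈ W, ∀ y ∈ W, x < y → ¬ R x y := by
  classical
  induction n with
  | zero =>
    intro V hV
    right
    have h1 : V.Nonempty := card_pos.1 (by omega)
    obtain ⟨x, hx⟩ := h1
    refine ⟨{x}, singleton_subset_iff.2 hx, card_singleton _, fun a ha b hb hab => ?_⟩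
    rw [mem_singleton] at ha hb
    omega
  | succ n ih =>
    intro V hV
    have h1 : V.Nonempty := card_pos.1 (by omega)
    set x := V.min' h1 with hx
    have hxV : x ∈ V := V.min'_mem h1
    have hmin : ∀ y ∈ V.erase x, x < y := fun y hy =>
      lt_of_le_of_ne (V.min'_le y (mem_of_mem_erase hy)) (ne_of_mem_erase hy).symm
    by_cases hred : k - 1 ≤ ((V.erase x).filter (fun y => R x y)).card
    · left
      obtain ⟨T, hT1, hT2⟩ := exists_subset_card_eq hred
      refine ⟨x, hxV, T, fun y hy => mem_of_mem_erase (mem_filter.1 (hT1 hy)).1, fun y hy => ?_, hT2⟩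
      exact ⟨hmin y (mem_filter.1 (hT1 hy)).1, (mem_filter.1 (hT1 hy)).2⟩
    · have h2 := card_filter_add_card_filter_not (s := V.erase x) (fun y => R x y)
      rw [card_erase_of_mem hxV] at h2
      have h3 : n * (k - 1) + 1 ≤ ((V.erase x).filter (fun y => ¬ R x y)).card := by
        have : (n + 1) * (k - 1) = n * (k - 1) + (k - 1) := by ring
        omega
      have hsub : (V.erase x).filter (fun y => ¬ R x y) ⊆ V := fun y hy =>
        mem_of_mem_erase (mem_filter.1 hy).1
      rcases ih _ h3 with ⟨z, hz, T, hT, h4, h5⟩ | ⟨W, hW, h4, h5⟩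
      · exact Or.inl ⟨z, hsub hz, T, hT.trans hsub, h4, h5⟩
      · right
        have hxW : x ∉ W := fun h => (ne_of_mem_erase (mem_filter.1 (hW h)).1) rfl
        refine ⟨insert x W, insert_subset hxV (hW.trans hsub), ?_, ?_⟩
        · rw [card_insert_of_notMem hxW, h4]
        · intro a ha b hb hab
          rw [mem_insert] at ha hb
          rcases ha with rfl | ha
          · rcases hb with rfl | hb
            · exact absurd hab (lt_irrefl _)
            · exact (mem_filter.1 (hW hb)).2
          · rcases hb with rfl | hb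
            · exact absurd hab (not_lt.2 (hmin a (mem_filter.1 (hW ha)).1).le)
            · exact h5 a ha b hb hab

theorem dn (k : ℕ) (hk : 2 ≤ k) (R : Gr) (n : ℕ) : ∀ V : Finset ℕ, n * (k - 1) + 1 ≤ V.card →
    (∃ x ∈ V, ∃ T ⊆ V, (∀ y ∈ T, y < x ∧ R y x) ∧ T.card = k - 1) ∨
    ∃ W ⊆ V, W.card = n + 1 ∧ ∀ x ∈ W, ∀ y ∈ W, x < y → ¬ R x y := by
  classical
  induction n with
  | zero =>
    intro V hV
    right
    have h1 : V.Nonempty := card_pos.1 (by omega)
    obtain ⟨x, hx⟩ := h1
    refine ⟨{x}, singleton_subset_iff.2 hx, card_singleton _, fun a ha b hb hab => ?_⟩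
    rw [mem_singleton] at ha hb
    omega
  | succ n ih =>
    intro V hV
    have h1 : V.Nonempty := card_pos.1 (by omega)
    set x := V.max' h1 with hx
    have hxV : x ∈ V := V.max'_mem h1
    have hmax : ∀ y ∈ V.erase x, y < x := fun y hy =>
      lt_of_le_of_ne (V.le_max' y (mem_of_mem_erase hy)) (ne_of_mem_erase hy)
    by_cases hred : k - 1 ≤ ((V.erase x).filter (fun y => R y x)).card
    · left
      obtain ⟨T, hT1, hT2⟩ := exists_subset_card_eq hred
      refine ⟨x, hxV, T, fun y hy => mem_of_mem_erase (mem_filter.1 (hT1 hy)).1, fun y hy => ?_, hT2⟩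
      exact ⟨hmax y (mem_filter.1 (hT1 hy)).1, (mem_filter.1 (hT1 hy)).2⟩
    · have h2 := card_filter_add_card_filter_not (s := V.erase x) (fun y => R y x)
      rw [card_erase_of_mem hxV] at h2
      have h3 : n * (k - 1) + 1 ≤ ((V.erase x).filter (fun y => ¬ R y x)).card := by
        have : (n + 1) * (k - 1) = n * (k - 1) + (k - 1) := by ring
        omega
      have hsub : (V.erase x).filter (fun y => ¬ R y x) ⊆ V := fun y hy =>
        mem_of_mem_erase (mem_filter.1 hy).1
      rcases ih _ h3 with ⟨z, hz, T, hT, h4, h5⟩ | ⟨W, hW, h4, h5⟩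
      · exact Or.inl ⟨z, hsub hz, T, hT.trans hsub, h4, h5⟩
      · right
        have hxW : x ∉ W := fun h => (ne_of_mem_erase (mem_filter.1 (hW h)).1) rfl
        refine ⟨insert x W, insert_subset hxV (hW.trans hsub), ?_, ?_⟩
        · rw [card_insert_of_notMem hxW, h4]
        · intro a ha b hb hab
          rw [mem_insert] at ha hb
          rcases ha with rfl | ha
          · rcases hb with rfl | hb
            · exact absurd hab (lt_irrefl _)
            · exact absurd hab (not_lt.2 (hmax b (mem_filter.1 (hW hb)).1).le)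
          · rcases hb with rfl | hb
            · exact (mem_filter.1 (hW ha)).2
            · exact h5 a ha b hb hab

theorem blu_of (n N : ℕ) (R : Gr) (W : Finset ℕ) (hW : W ⊆ Icc 1 N) (hc : W.card = n)
    (h : ∀ x ∈ W, ∀ y ∈ W, x < y → ¬ R x y) : Blu n N R := by
  obtain ⟨g, h1, h2, -⟩ := enum n W hc
  refine ⟨g, fun i hi hin => mem_Icc.1 (hW (h1 i hi hin)), fun i j hi hij hj => ?_⟩
  have h3 := h2 i j hi hij hj
  exact ⟨h3, h _ (h1 i hi (by omega)) _ (h1 j (by omega) hj) h3⟩

/-- JOB STAR -/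
theorem stStar : StStar := by
  classical
  intro n k a hn hk ha R
  obtain ⟨n, rfl⟩ : ∃ m, n = m + 1 := ⟨n - 1, by omega⟩
  have hN : (Icc 1 ((n + 1 - 1) * (k - 1) + 1)).card = n * (k - 1) + 1 := by
    rw [Nat.card_Icc]
    simp
  set N := (n + 1 - 1) * (k - 1) + 1 with hNdef
  by_cases ha1 : a = 1
  · subst ha1
    rcases up k hk R n (Icc 1 N) hN.ge with ⟨x, hx, T, hT, h1, h2⟩ | ⟨W, hW, h1, h2⟩
    · left
      have hxT : x ∉ T := fun h => lt_irrefl _ (h1 x h).1
      obtain ⟨f, h3, h4, h5⟩ := enum k (insert x T) (by rw [card_insert_of_notMem hxT, h2]; omega)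
      have hf1 : f 1 = x := by
        obtain ⟨i, h6, h7, h8⟩ := h5 x (mem_insert_self _ _)
        rcases Nat.lt_or_ge 1 i with h9 | h9
        · have h10 := h4 1 i le_rfl h9 h7
          rcases mem_insert.1 (h3 1 le_rfl (by omega)) with h11 | h11
          · exact h11
          · have := (h1 _ h11).1
            omega
        · have : i = 1 := by omega
          rw [← this]
          exact h8
      have hsub : insert x T ⊆ Icc 1 N := insert_subset hx hT
      refine ⟨f, fun i hi hik => mem_Icc.1 (hsub (h3 i hi hik)), h4, ?_⟩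
      intro i j hi hij hj hE
      have hi1 : i = 1 := by
        rcases hE with h6 | h6 <;> omega
      subst hi1
      have h6 := h4 1 j le_rfl hij hj
      rw [hf1] at h6 ⊢
      rcases mem_insert.1 (h3 j (by omega) hj) with h7 | h7
      · omega
      · exact (h1 _ h7).2
    · right
      exact blu_of _ _ R W hW h1 h2
  · have ha2 : a = k - 1 := by tauto
    subst ha2
    rcases dn k hk R n (Icc 1 N) hN.ge with ⟨x, hx, T, hT, h1, h2⟩ | ⟨W, hW, h1, h2⟩
    · left
      have hxT : x ∉ T := fun h => lt_irrefl _ (h1 x h).1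
      obtain ⟨f, h3, h4, h5⟩ := enum k (insert x T) (by rw [card_insert_of_notMem hxT, h2]; omega)
      have hf1 : f k = x := by
        obtain ⟨i, h6, h7, h8⟩ := h5 x (mem_insert_self _ _)
        rcases Nat.lt_or_ge i k with h9 | h9
        · have h10 := h4 i k h6 h9 le_rfl
          rcases mem_insert.1 (h3 k (by omega) le_rfl) with h11 | h11
          · exact h11
          · have := (h1 _ h11).1
            omega
        · have : i = k := by omega
          rw [← this]
          exact h8
      have hsub : insert x T ⊆ Icc 1 N := insert_subset hx hT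
      refine ⟨f, fun i hi hik => mem_Icc.1 (hsub (h3 i hi hik)), h4, ?_⟩
      intro i j hi hij hj hE
      have hj1 : j = k := by
        rcases hE with h6 | h6 <;> omega
      subst hj1
      have h6 := h4 i j hi hij le_rfl
      rw [hf1] at h6 ⊢
      rcases mem_insert.1 (h3 i hi (by omega)) with h7 | h7
      · omega
      · exact (h1 _ h7).2
    · right
      exact blu_of _ _ R W hW h1 h2

end Pool.Agent.K7.H79.OG
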